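import Pool.Agent.K3h18.HX.Ineq
import Pool.Agent.Y254.HK.All

/-!
# The core inequalities for two-ends, broad laws
-/

set_option autoImplicit false
set_option linter.unusedVariables false

open Finset
open scoped Classical

namespace Pool.Agent.K3h18.HX
open Pool.Agent.W904.AK Pool.Agent.W46.HD Pool.Agent.W46.HM Pool.Agent.Y244.HM
  Pool.Agent.W597.HD Pool.Agent.Y254HK

/-- The configuration with all facts. -/
theorem setupX (d : ℕ) {ε : ℝ} (hε : 0 < ε) : ∃ C : ℝ, 0 ≤ C ∧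
    ∀ (n : ℕ) (Ω : Type) [Fintype Ω] (A D : Ω → Fin d → ℝ), IsFam n D →
    ∀ p : Ω × Fin n → ℝ, IsLaw p → ∀ S : ℝ, SepM p S → ang A D p ≤ S →
    ∃ (Θ : Type) (iΘ : Fintype Θ) (q : Θ → ℝ) (l1 l2 l3 : Θ → Ω) (s0 s1 t t' τ v : Θ → Fin n),
      CfgV A D p S q l1 l2 l3 s0 s1 t t' τ v ∧
      Geo A D q l1 l2 l3 s0 s1 t t' τ v (ε * Real.log n + C * (1 + S)) ∧
      G3c A D q l1 l3 s0 s1 t t' (ε * Real.log n + C * (1 + S)) ∧
      FW A D q l1 l2 l3 s0 s1 t t' τ v (ε * Real.log n + C * (1 + S)) := by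
  have hBOX := Pool.Agent.Y710.HK.t_box
  have hF9 := Pool.Agent.Y290.HK.t_f9 hBOX
  obtain ⟨C1, hC1, hG⟩ := geo_of Pool.Agent.Y721.HK.t_fa (Pool.Agent.Y37.HK.t_fb hBOX)
    (Pool.Agent.Y657.HK3.t_f3 hBOX) (Pool.Agent.Y141.HK.t_f4 hBOX) (Pool.Agent.Y290.HK.t_f6 hBOX)
    (Pool.Agent.Y971.HK.t_f8 hBOX) hF9
    (Pool.Agent.Y297HK.t_fcA Pool.Agent.Y899.HK.t_cord Pool.Agent.Y484.HK.t_plc)
    (Pool.Agent.Y297HK.t_fcB Pool.Agent.Y899.HK.t_cord Pool.Agent.Y484.HK.t_plc) d ε hε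
  obtain ⟨C2, hC2, hG3⟩ := t_g3c d ε hε
  obtain ⟨C3, hC3, hFW⟩ := Pool.Agent.Y275.HK.t_fw hBOX hF9 d ε hε
  refine ⟨C1 + C2 + C3, by positivity, ?_⟩
  intro n Ω _ A D hfam p hp S hsep hang
  have hS : 0 ≤ S := SepM_nonneg hp hsep
  obtain ⟨Θ, iΘ, q, l1, l2, l3, s0, s1, t, t', τ, v, hc⟩ := t_cfgv A D p S hfam.pos hp hsep hang
  have h1 := hG n Ω A D hfam p S hp hS Θ iΘ q l1 l2 l3 s0 s1 t t' τ v hc.toCfgU
  have h2 := hG3 n Ω A D hfam p S hp Θ iΘ q l1 l2 l3 s0 s1 t t' τ v hc.toCfgU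
  have h3 := hFW n Ω A D hfam p S hp Θ iΘ q l1 l2 l3 s0 s1 t t' τ v hc.toCfgU
  have p1 : 0 ≤ C1 * (1 + S) := by positivity
  have p2 : 0 ≤ C2 * (1 + S) := by positivity
  have p3 : 0 ≤ C3 * (1 + S) := by positivity
  have e : ε * Real.log n + (C1 + C2 + C3) * (1 + S) =
    ε * Real.log n + C1 * (1 + S) + C2 * (1 + S) + C3 * (1 + S) := by ring
  refine ⟨Θ, iΘ, q, l1, l2, l3, s0, s1, t, t', τ, v, hc, ?_, ?_, ?_⟩
  · have hle : ε * Real.log n + C1 * (1 + S) ≤ ε * Real.log n + (C1 + C2 + C3) * (1 + S) := by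
      rw [e]; linarith
    constructor
    · exact h1.fa.mono hle
    · exact h1.fb.mono hle
    · have h := h1.f3
      unfold F3 at h ⊢
      linarith
    · have h := h1.f4
      unfold F4 at h ⊢
      linarith
    · have h := h1.f6
      unfold F6 at h ⊢
      linarith
    · have h := h1.f8
      unfold F8 at h ⊢
      linarith
    · have h := h1.f9
      unfold F9 at h ⊢
      linarith
    · have h := h1.fcA
      unfold FcA at h ⊢
      linarith
    · have h := h1.fcB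
      unfold FcB at h ⊢
      linarith
  · have h : G3c A D q l1 l3 s0 s1 t t' (ε * Real.log n + C2 * (1 + S)) := h2
    unfold G3c at h ⊢
    rw [e]
    linarith
  · have h : FW A D q l1 l2 l3 s0 s1 t t' τ v (ε * Real.log n + C3 * (1 + S)) := h3
    unfold FW at h ⊢
    rw [e]
    linarith

/-- A linear inequality for two-ends, broad laws. -/
def CoreX (d : ℕ) (α β γ δ η : ℝ) : Prop := ∀ ε : ℝ, 0 < ε → ∃ C : ℝ, 0 ≤ C ∧
    ∀ (n : ℕ) (Ω : Type) [Fintype Ω] (A D : Ω → Fin d → ℝ), IsFam n D →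
    ∀ p : Ω × Fin n → ℝ, IsLaw p → ∀ S : ℝ, SepM p S → ang A D p ≤ S →
      α * aa p + β * Real.log n ≤ γ * hh A D p + δ * lam p + η * mi p +
        ε * Real.log n + C * (1 + S)

/-- Linear combinations. -/
theorem CoreX.comb {d : ℕ} {α β γ δ η α' β' γ' δ' η' x y : ℝ} (hx : 0 ≤ x) (hy : 0 ≤ y)
    (h1 : CoreX d α β γ δ η) (h2 : CoreX d α' β' γ' δ' η') :
    CoreX d (x * α + y * α') (x * β + y * β') (x * γ + y * γ') (x * δ + y * δ')
      (x * η + y * η') := by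
  intro ε hε
  obtain ⟨C1, hC1, h1⟩ := h1 (ε / (x + y + 1)) (by positivity)
  obtain ⟨C2, hC2, h2⟩ := h2 (ε / (x + y + 1)) (by positivity)
  refine ⟨x * C1 + y * C2, by positivity, ?_⟩
  intro n Ω _ A D hfam p hp S hsep hang
  have hN : 0 ≤ Real.log n := Real.log_nonneg (by exact_mod_cast hfam.pos)
  have k1 := mul_le_mul_of_nonneg_left (h1 n Ω A D hfam p hp S hsep hang) hx
  have k2 := mul_le_mul_of_nonneg_left (h2 n Ω A D hfam p hp S hsep hang) hy
  have k3 : (x + y) * (ε / (x + y + 1) * Real.log n) ≤ ε * Real.log n := by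
    have h3 : (x + y) * (ε / (x + y + 1) * Real.log n) =
        (x + y) / (x + y + 1) * (ε * Real.log n) := by
      field_simp
    rw [h3]
    have h4 : (x + y) / (x + y + 1) ≤ 1 := by
      rw [div_le_one (by positivity)]; linarith
    have h5 : 0 ≤ ε * Real.log n := by positivity
    have := mul_le_mul_of_nonneg_right h4 h5
    linarith
  have e1 : (x * α + y * α') * aa p + (x * β + y * β') * Real.log n =
      x * (α * aa p + β * Real.log n) + y * (α' * aa p + β' * Real.log n) := by ring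
  rw [e1]
  refine (add_le_add k1 k2).trans ?_
  have e2 : x * (γ * hh A D p + δ * lam p + η * mi p + ε / (x + y + 1) * Real.log n +
      C1 * (1 + S)) + y * (γ' * hh A D p + δ' * lam p + η' * mi p +
      ε / (x + y + 1) * Real.log n + C2 * (1 + S)) =
      (x * γ + y * γ') * hh A D p + (x * δ + y * δ') * lam p + (x * η + y * η') * mi p +
      (x * C1 + y * C2) * (1 + S) + (x + y) * (ε / (x + y + 1) * Real.log n) := by ring
  rw [e2]
  linarith

theorem mi_le_lam {Ω : Type} [Fintype Ω] {n : ℕ} {p : Ω × Fin n → ℝ} (hp : IsLaw p) :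
    mi p ≤ lam p := by
  have h := H_height hp (Prod.snd : Ω × Fin n → Fin n)
  unfold mi lam
  linarith

/-- From a linear inequality to an oracle. -/
theorem CoreX.step {d : ℕ} (hd : 1 ≤ d) {α β γ δ η c : ℝ} (hβ : 0 ≤ β) (hM : 0 < α + β / d)
    (hγ : γ ≤ c * (α + β / d)) (hδ : δ ≤ d * (α + β / d))
    (hη : δ + η - c * (α + β / d) ≤ d * (α + β / d))
    (h : CoreX d α β γ δ η) : AllBX d c := by
  have hd0 : (0 : ℝ) < d := by exact_mod_cast hd
  obtain ⟨M, hMd⟩ : ∃ M : ℝ, M = α + β / d := ⟨_, rfl⟩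
  rw [← hMd] at hM hγ hδ hη
  intro ε hε
  obtain ⟨C, hC, h⟩ := h (ε * M) (by positivity)
  refine ⟨(C + β) / M, by positivity, ?_⟩
  intro n Ω _ A D hfam p hp S hsep hang
  have hS : 0 ≤ S := SepM_nonneg hp hsep
  have hN : 0 ≤ Real.log n := Real.log_nonneg (by exact_mod_cast hfam.pos)
  have h1 := h n Ω A D hfam p hp S hsep hang
  have h2 := aa_le hfam hp
  have h3 : (β / d) * aa p ≤ (β / d) * (d * (1 + Real.log n)) :=
    mul_le_mul_of_nonneg_left h2 (by positivity)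
  have h4 : (β / d) * (d * (1 + Real.log n)) = β * (1 + Real.log n) := by
    field_simp
  have hl := lam_nonneg hfam.pos hp
  have hm := mi_nonneg hp
  have hml := mi_le_lam hp
  have hh0 := hh_nonneg (A := A) (D := D) hp
  have h5 : M * aa p ≤ M * (c * (hh A D p + mi p) + d * lam p + ε * Real.log n +
      (C + β) / M * (1 + S)) := by
    have e : M * aa p = α * aa p + (β / d) * aa p := by rw [hMd]; ring
    have e2 : M * (c * (hh A D p + mi p) + d * lam p + ε * Real.log n +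
      (C + β) / M * (1 + S)) = c * M * (hh A D p + mi p) + d * M * lam p + ε * M * Real.log n +
      (C + β) * (1 + S) := by
      field_simp
    have e3 : 0 ≤ β * S := by positivity
    have k1 : γ * hh A D p ≤ c * M * hh A D p := mul_le_mul_of_nonneg_right hγ hh0
    have k2 : δ * lam p + η * mi p ≤ c * M * mi p + d * M * lam p := by
      have k3 : (η - c * M) * mi p ≤ (d * M - δ) * lam p := by
        rcases le_or_gt (η - c * M) 0 with h6 | h6
        · have h7 : (η - c * M) * mi p ≤ 0 := mul_nonpos_of_nonpos_of_nonneg h6 hm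
          have h8 : 0 ≤ (d * M - δ) * lam p := mul_nonneg (by linarith) hl
          linarith
        · have h7 : (η - c * M) * mi p ≤ (η - c * M) * lam p :=
            mul_le_mul_of_nonneg_left hml h6.le
          have h8 : (η - c * M) * lam p ≤ (d * M - δ) * lam p :=
            mul_le_mul_of_nonneg_right (by linarith) hl
          linarith
      linarith
    rw [e, e2]
    linarith
  exact le_of_mul_le_mul_left h5 hM

/-! ### The three inequalities -/

/-- The inequality of Wolff's hairbrush. -/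
theorem coreW (d : ℕ) : CoreX d 1 1 2 2 2 := by
  intro ε hε
  obtain ⟨C, hC, h⟩ := setupX d (ε := ε / 3) (by positivity)
  refine ⟨3 * C, by positivity, ?_⟩
  intro n Ω _ A D hfam p hp S hsep hang
  have hS : 0 ≤ S := SepM_nonneg hp hsep
  have hN : 0 ≤ Real.log n := Real.log_nonneg (by exact_mod_cast hfam.pos)
  obtain ⟨Θ, iΘ, q, l1, l2, l3, s0, s1, t, t', τ, v, hc, hg, -, -⟩ :=
    h n Ω A D hfam p hp S hsep hang
  have := wolffX hc hg (by positivity)
  linarith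

/-- errors -/
theorem errX {K ε N C C0 S : ℝ} (hK : 0 ≤ K) (hε : 0 < ε) (hN : 0 ≤ N) (hS : 0 ≤ S)
    (hC0 : 0 ≤ C0) :
    K * ((ε / (2 * (K + 1)) * N + C * (1 + S)) + (ε / (2 * (K + 1)) * N + C0)) ≤
      ε * N + K * (C + C0) * (1 + S) := fin_err hK hε hN hS hC0

/-- algebra -/
theorem coreT_alg (b d a N h L m Q HX w th r E F : ℝ) (hb : 1 < b) (hd : 0 ≤ d) (hE : 0 ≤ E)
    (hF : 0 ≤ F) (hth : 0 ≤ th)
    (a1 : 2 * a - h + 3 * N + (b - 1) * HX ≤ b * (Q - th) + r + 4 * L + m + (b + d - 1) * w +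
      (2 * b + 6) * (E + F))
    (a2 : r ≤ th + 2 * w + 5 * E)
    (x1 : 2 * a - 2 * h + 2 * N - 4 * L - 2 * m + w ≤ HX + 8 * E)
    (hQ : Q ≤ 2 * h + 2 * N - 2 * L + 2 * m) (w1 : w ≤ 2 * L + 3 * E) :
    2 * b * a + 1 * N ≤ (4 * b - 1) * h + (2 * b + 2 * d + 4) * L + (4 * b - 1) * m +
      (10 * b + 3 * d + 17) * (E + F) := by
  have m1 := mul_nonneg (by linarith : 0 ≤ b - 1) hth
  have m2 := mul_le_mul_of_nonneg_left x1 (by linarith : 0 ≤ b - 1)
  have m3 := mul_le_mul_of_nonneg_left hQ (by linarith : 0 ≤ b)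
  have m4 := mul_le_mul_of_nonneg_left w1 (by linarith : 0 ≤ d + 2)
  have m6 : 0 ≤ b * F := by positivity
  have m8 : 0 ≤ d * F := by positivity
  have m5 : 0 ≤ b * E := by positivity
  have m7 : 0 ≤ d * E := by positivity
  linarith

/-- algebra -/
theorem coreH_alg (b d a N h L m Q HX HW w g th ze r1 r2 kap E F : ℝ) (hb : 1 < b) (hb2 : b < 2)
    (hd : 0 ≤ d)
    (hE : 0 ≤ E) (hF : 0 ≤ F) (hth : 0 ≤ th) (hL : 0 ≤ L) (hm : 0 ≤ m)
    (a1 : 2 * a - h + 3 * N + (b - 1) * HX ≤ b * (Q - th) + r1 + 4 * L + m + (b + d - 1) * w +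
      (2 * b + 6) * (E + F))
    (a2 : r1 ≤ th + 2 * w + 5 * E)
    (k1 : kap ≤ L + 2 * E)
    (b1 : 3 * a - 2 * h + 4 * N + (b - 1) * HW ≤ b * (h + N + HX - ze) + r2 + kap +
      (6 - b) * L + (2 + b) * m - w + (b + d - 1) * g + (2 * b + 6) * (E + F))
    (b2 : r2 ≤ ze + N + g + E)
    (fw : r2 ≤ 2 * ze + 4 * g + E)
    (c1 : Q + a - 2 * h - N - L - 3 * m + w + g ≤ HW + 3 * E)
    (hQ : Q ≤ 2 * h + 2 * N - 2 * L + 2 * m) (w1 : w ≤ 2 * L + 3 * E)
    (w2 : w + g ≤ 3 * L + 3 * E) :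
    (b ^ 2 + 3 * b - 2) * a + (3 * b - 1 - b ^ 2) * N ≤ (3 * b ^ 2 + 2 * b - 2) * h +
      ((3 * b - 1) * d + 3 * b ^ 2 + 5 * b - 2) * L + (4 * b ^ 2 - 1) * m +
      (100 + 20 * d) * (E + F) := by
  have hb0 : 0 < b - 1 := by linarith
  have c1' := mul_le_mul_of_nonneg_left c1 hb0.le
  have r2' : r2 ≤ b * ze + (2 - b) * N + (3 * b - 2) * g + E := by
    have u1 := mul_le_mul_of_nonneg_left b2 (by linarith : 0 ≤ 2 - b)
    have u2 := mul_le_mul_of_nonneg_left fw hb0.le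
    linarith
  -- A : 2a - h + 3N + (b-1) HX ≤ b Q + 4L + m + (b+d+1) w + ...
  have A : 2 * a - h + 3 * N + (b - 1) * HX ≤ b * Q + 4 * L + m + (b + d + 1) * w +
      (2 * b + 11) * (E + F) := by
    have := mul_nonneg hb0.le hth
    linarith
  have B : 3 * a - 2 * h + 4 * N + (b - 1) * (Q + a - 2 * h - N - L - 3 * m + w + g) ≤
      b * (h + N + HX) + (2 - b) * N + (3 * b - 2) * g + (7 - b) * L + (2 + b) * m - w +
      (b + d - 1) * g + (5 * b + 6) * (E + F) := by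
    have : 0 ≤ (b - 1) * F := by positivity
    have : 0 ≤ (b - 1) * E := by positivity
    linarith
  have A' := mul_le_mul_of_nonneg_left A (by linarith : 0 ≤ b)
  have B' := mul_le_mul_of_nonneg_left B hb0.le
  have Q' := mul_le_mul_of_nonneg_left hQ (by linarith : 0 ≤ 2 * b - 1)
  have c2 : 0 ≤ (b - 1) * (3 * b + d - 2) := mul_nonneg hb0.le (by linarith)
  have c3 : 0 ≤ d + 7 * b - 3 * b ^ 2 - 2 := by nlinarith
  have W1 := mul_le_mul_of_nonneg_left w2 c2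
  have W2 := mul_le_mul_of_nonneg_left w1 c3
  have P : b * (2 * b + 11) + (b - 1) * (5 * b + 6) + 3 * ((b - 1) * (3 * b + d - 2)) +
      3 * (d + 7 * b - 3 * b ^ 2 - 2) ≤ 100 + 20 * d := by nlinarith
  have P' := mul_le_mul_of_nonneg_right P (by linarith : 0 ≤ E + F)
  have z1 : 0 ≤ (b - 1) * (3 * b + d - 2) * F := mul_nonneg c2 hF
  have z2 : 0 ≤ (d + 7 * b - 3 * b ^ 2 - 2) * F := mul_nonneg c3 hF
  linarith

/-- The first part of the Katz-Tao argument, with Cordoba's argument. -/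
theorem coreT {d : ℕ} {b : ℝ} (hb : 1 < b) (h : AllX d b) :
    CoreX d (2 * b) 1 (4 * b - 1) (2 * b + 2 * d + 4) (4 * b - 1) := by
  intro ε hε
  have hd0 : (0 : ℝ) ≤ d := Nat.cast_nonneg d
  obtain ⟨K, hK⟩ : ∃ K : ℝ, K = 10 * b + 3 * d + 17 := ⟨_, rfl⟩
  have hK0 : 0 ≤ K := by rw [hK]; linarith
  obtain ⟨C, hC, hs⟩ := setupX d (ε := ε / (2 * (K + 1))) (by positivity)
  obtain ⟨C0, hC0, hO⟩ := h (ε / (2 * (K + 1))) (by positivity)
  refine ⟨K * (C + C0), by positivity, ?_⟩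
  intro n Ω _ A D hfam p hp S hsep hang
  have hS : 0 ≤ S := SepM_nonneg hp hsep
  have hN : 0 ≤ Real.log n := Real.log_nonneg (by exact_mod_cast hfam.pos)
  obtain ⟨Θ, iΘ, q, l1, l2, l3, s0, s1, t, t', τ, v, hc, hg, hg3, -⟩ :=
    hs n Ω A D hfam p hp S hsep hang
  have herr := errX (C := C) hK0 hε hN hS hC0
  have hor := hO n Ω A D hfam
  have hE0 : 0 ≤ ε / (2 * (K + 1)) * Real.log n + C * (1 + S) := by positivity
  have hF0 : 0 ≤ ε / (2 * (K + 1)) * Real.log n + C0 := by positivity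
  have hq := hc.law
  obtain ⟨w1, w2, -, -⟩ := sizesX hc hg hE0
  have a1 := a1X hb hd0 hc hg hE0 hF0 hor
  have a2 := a2X hc hg hE0
  have x1 := x1X hc hg hE0 hg3
  have hQ := qX hc
  have th : 0 ≤ H q (fun z => ((cell A D (t z) (l1 z), XX A D l1 l3 s0 s1 t t' z, t z), t' z)) -
      H q (fun z => (cell A D (t z) (l1 z), XX A D l1 l3 s0 s1 t t' z, t z)) := by
    have := H_mono hq (Det.fst q (fun z => (cell A D (t z) (l1 z), XX A D l1 l3 s0 s1 t t' z, t z))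
      t')
    linarith
  have key := coreT_alg b d _ _ _ _ _ _ _ _ _ _ _ _ hb hd0 hE0 hF0 th a1 a2 x1 hQ w1
  rw [← hK] at key
  linarith

/-- The second part of the Katz-Tao argument, with Cordoba's argument. -/
theorem coreH {d : ℕ} {b : ℝ} (hb : 1 < b) (hb2 : b < 2) (h : AllX d b) :
    CoreX d (b ^ 2 + 3 * b - 2) (3 * b - 1 - b ^ 2) (3 * b ^ 2 + 2 * b - 2)
      ((3 * b - 1) * d + 3 * b ^ 2 + 5 * b - 2) (4 * b ^ 2 - 1) := by
  intro ε hε
  have hd0 : (0 : ℝ) ≤ d := Nat.cast_nonneg d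
  obtain ⟨K, hK⟩ : ∃ K : ℝ, K = 100 + 20 * d := ⟨_, rfl⟩
  have hK0 : 0 ≤ K := by rw [hK]; linarith
  obtain ⟨C, hC, hs⟩ := setupX d (ε := ε / (2 * (K + 1))) (by positivity)
  obtain ⟨C0, hC0, hO⟩ := h (ε / (2 * (K + 1))) (by positivity)
  refine ⟨K * (C + C0), by positivity, ?_⟩
  intro n Ω _ A D hfam p hp S hsep hang
  have hS : 0 ≤ S := SepM_nonneg hp hsep
  have hN : 0 ≤ Real.log n := Real.log_nonneg (by exact_mod_cast hfam.pos)
  obtain ⟨Θ, iΘ, q, l1, l2, l3, s0, s1, t, t', τ, v, hc, hg, hg3, hFW⟩ :=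
    hs n Ω A D hfam p hp S hsep hang
  have herr := errX (C := C) hK0 hε hN hS hC0
  have hor := hO n Ω A D hfam
  have hE0 : 0 ≤ ε / (2 * (K + 1)) * Real.log n + C * (1 + S) := by positivity
  have hF0 : 0 ≤ ε / (2 * (K + 1)) * Real.log n + C0 := by positivity
  have hq := hc.law
  obtain ⟨w1, w2, -, -⟩ := sizesX hc hg hE0
  have a1 := a1X hb hd0 hc hg hE0 hF0 hor
  have a2 := a2X hc hg hE0
  have k1 := k1X hc hg hE0
  have b1 := b1X hb hd0 hc hg hE0 hF0 hor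
  have b2 := b2X hc hg hE0
  have c1 := c1X hc hg hE0
  have hQ := qX hc
  have fw : H q (fun z => (l2 z, WW A D l2 l3 s0 s1 t t' τ v z, v z, s1 z)) -
      H q (fun z => (l2 z, WW A D l2 l3 s0 s1 t t' τ v z)) ≤
      2 * (H q (fun z => (l2 z, WW A D l2 l3 s0 s1 t t' τ v z, τ z,
        (XX A D l1 l3 s0 s1 t t' z).1)) -
      H q (fun z => (l2 z, WW A D l2 l3 s0 s1 t t' τ v z, τ z))) +
      4 * wG q l1 l2 l3 s0 s1 t t' τ v + (ε / (2 * (K + 1)) * Real.log n + C * (1 + S)) := by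
    unfold FW at hFW
    linarith
  have th : 0 ≤ H q (fun z => ((cell A D (t z) (l1 z), XX A D l1 l3 s0 s1 t t' z, t z), t' z)) -
      H q (fun z => (cell A D (t z) (l1 z), XX A D l1 l3 s0 s1 t t' z, t z)) := by
    have := H_mono hq (Det.fst q (fun z => (cell A D (t z) (l1 z), XX A D l1 l3 s0 s1 t t' z, t z))
      t')
    linarith
  have k1' : H q (fun z => ((l3 z, s1 z, cell A D (s1 z) (l1 z)), s0 z)) -
      H q (fun z => (l3 z, s1 z, cell A D (s1 z) (l1 z))) ≤ lam p +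
      2 * (ε / (2 * (K + 1)) * Real.log n + C * (1 + S)) := by linarith
  have key := coreH_alg b d _ _ _ _ _ _ _ _ _ _ _ _ _ _ _ _ _ hb hb2 hd0 hE0 hF0 th
    (lam_nonneg hfam.pos hp) (mi_nonneg hp) a1 a2 k1' b1 b2 fw c1 hQ w1 w2
  rw [← hK] at key
  linarith

end Pool.Agent.K3h18.HX
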