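import Pool.Agent.K3h18.HX.Loc

/-!
# From broad, two-ends laws to all laws (edit of `Y254/HK/ExtG.lean`)
-/

set_option autoImplicit false
set_option linter.unusedVariables false

open Finset
open scoped Classical

namespace Pool.Agent.K3h18.HX
open Pool.Agent.W904.AK Pool.Agent.W46.HD Pool.Agent.W46.HM Pool.Agent.Y244.HM
  Pool.Agent.W597.HD Pool.Agent.Y254HK

section basicsG

variable {Ω : Type} [Fintype Ω] {d n : ℕ} {A D : Ω → Fin d → ℝ} {p : Ω × Fin n → ℝ}

theorem LamX_le (hfam : IsFam n D) {b G : ℝ} (hb : 0 ≤ b) (hG : 0 ≤ G) (hp : IsLaw p) :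
    LamX A D b G p ≤ d * (1 + Real.log n) := by
  have h1 := aa_le hfam hp
  have h2 := mul_nonneg hb (add_nonneg (hh_nonneg (A := A) (D := D) hp) (mi_nonneg hp))
  have h4 : 0 ≤ G * lam p := mul_nonneg hG (lam_nonneg hfam.pos hp)
  unfold LamX
  linarith

end basicsG

/-- The values of the functional at scales at most `n`. -/
def VVX (d : ℕ) (b G ε : ℝ) (n : ℕ) : Set ℝ := {x | ∃ n' : ℕ, n' ≤ n ∧ ∃ (Ω : Type) (_ : Fintype Ω)
  (A D : Ω → Fin d → ℝ), IsFam n' D ∧ ∃ p : Ω × Fin n' → ℝ, IsLaw p ∧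
    x = LamX A D b G p - ε * Real.log n'}

theorem VVX_bdd {d : ℕ} {b G ε : ℝ} (hb : 0 ≤ b) (hG : 0 ≤ G) (hε : 0 ≤ ε) (n : ℕ) (hn : 1 ≤ n) :
    BddAbove (VVX d b G ε n) := by
  refine ⟨d * (1 + Real.log n), ?_⟩
  rintro x ⟨n', hn', Ω, _, A, D, hfam, p, hp, rfl⟩
  have h1 := LamX_le hfam (A := A) hb hG hp
  have h2 : (1 : ℝ) ≤ n' := by exact_mod_cast hfam.pos
  have h3 : Real.log n' ≤ Real.log n := Real.log_le_log (by linarith) (by exact_mod_cast hn')
  have h4 : 0 ≤ ε * Real.log n' := mul_nonneg hε (Real.log_nonneg h2)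
  have h5 : (d : ℝ) * (1 + Real.log n') ≤ d * (1 + Real.log n) :=
    mul_le_mul_of_nonneg_left (by linarith) (Nat.cast_nonneg d)
  linarith

theorem VVX_ne {d : ℕ} {b G ε : ℝ} (n : ℕ) (hn : 1 ≤ n) : (VVX d b G ε n).Nonempty := by
  refine ⟨_, 1, hn, Unit, inferInstance, fun _ _ => 0, fun _ _ => 0, ⟨le_rfl, ?_, ?_, ?_⟩,
    fun _ => 1, ⟨?_, ?_⟩, rfl⟩
  · intro ω i; exact le_rfl
  · intro ω i; exact zero_le_one
  · intro ω ω' _; exact Subsingleton.elim _ _
  · intro x; exact zero_le_one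
  · simp

/-- The value of the functional on sub-laws. -/
theorem LamX_sup {d : ℕ} {b G ε : ℝ} (hb : 0 ≤ b) (hG : 0 ≤ G) (hε : 0 ≤ ε) {n n' : ℕ} (hn : 1 ≤ n) (hn' : n' ≤ n)
    {Ω : Type} [Fintype Ω] {A D : Ω → Fin d → ℝ} (hfam : IsFam n' D) {p : Ω × Fin n' → ℝ}
    (hp : IsLaw p) : LamX A D b G p ≤ sSup (VVX d b G ε n) + ε * Real.log n' := by
  have h := le_csSup (VVX_bdd (d := d) (b := b) (ε := ε) hb hG hε n hn)
    (⟨n', hn', Ω, inferInstance, A, D, hfam, p, hp, rfl⟩ :
      LamX A D b G p - ε * Real.log n' ∈ VVX d b G ε n)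
  linarith

theorem OrX_of_sup {d : ℕ} {b G ε : ℝ} (hb : 0 ≤ b) (hG : 0 ≤ G) (hε : 0 ≤ ε) {n n' : ℕ} (hn : 1 ≤ n)
    (hn' : n' ≤ n) {Ω : Type} [Fintype Ω] {A D : Ω → Fin d → ℝ} (hfam : IsFam n' D) :
    OrX n' A D b G (sSup (VVX d b G ε n) + ε * Real.log n') := by
  intro p hp
  have h := LamX_sup (A := A) hb hG hε hn hn' hfam hp
  unfold LamX at h
  linarith

/-- The two-class argument. -/
theorem two_classX {d : ℕ} {b G ε : ℝ} (hb : 0 ≤ b) (hG : 0 ≤ G) (hε : 0 ≤ ε) {n n' : ℕ}
    (hn : 1 ≤ n) (hn' : n' ≤ n) {Ω : Type} [Fintype Ω] {A D : Ω → Fin d → ℝ} (hfam : IsFam n' D)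
    {p : Ω × Fin n' → ℝ} (hp : IsLaw p) {η : ℝ} (hη : 0 < η)
    (hmax : sSup (VVX d b G ε n) - η < LamX A D b G p - ε * Real.log n') (U : Ω × Fin n' → Bool)
    {C' x : ℝ} (hU : im p U true ≠ 0 → LamX A D b G (cd p U true) ≤
      sSup (VVX d b G ε n) + ε * (Real.log n' - x) + C') :
    im p U true ≤ η + Real.exp ((C' + (G + 1 + b) + 1) / (G + 1 + b)) *
      Real.exp (-(ε / (G + 1 + b)) * x) := by
  have h1 := two_X A D hb hG hp U hU fun h0 =>
    LamX_sup (A := A) (ε := ε) hb hG hε hn hn' hfam (cd_law hp U h0)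
  have h2 : im p U true + im p U false = 1 := by
    have h3 : ∑ x, p x = 1 := hp.total
    rw [← h3]
    unfold im
    rw [← Finset.sum_add_distrib]
    refine Finset.sum_congr rfl fun x _ => ?_
    cases hU : U x <;> simp
  have h3 := H_bool hp U
  have hd : (0 : ℝ) < G + 1 + b := by linarith
  have h4 := mul_le_mul_of_nonneg_left h3 hd.le
  refine rho_bound hη hd ?_
  have h5 : im p U false = 1 - im p U true := by linarith
  rw [h5] at h1
  nlinarith

theorem extXG (d : ℕ) (b G : ℝ) (hb : 1 ≤ b) (hdG : (d : ℝ) ≤ G)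
    (hB : ∀ ε : ℝ, 0 < ε → ∃ C : ℝ, 0 ≤ C ∧
      ∀ (n : ℕ) (Ω : Type) [Fintype Ω] (A D : Ω → Fin d → ℝ), IsFam n D →
      ∀ p : Ω × Fin n → ℝ, IsLaw p → ∀ S : ℝ, SepM p S → ang A D p ≤ S →
        aa p ≤ b * (hh A D p + mi p) + G * lam p + ε * Real.log n + C * (1 + S)) :
    ∀ ε : ℝ, 0 < ε → ∃ C : ℝ, 0 ≤ C ∧
      ∀ (n : ℕ) (Ω : Type) [Fintype Ω] (A D : Ω → Fin d → ℝ), IsFam n D →
        OrX n A D b G (ε * Real.log n + C) := by
  intro ε hε
  have hSH := Pool.Agent.Y86.HK.t_sumh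
  have hSD := Pool.Agent.Y86.HK.t_sumd
  have hGn : 0 ≤ G := (Nat.cast_nonneg d).trans hdG
  have hb0 : 0 ≤ b := by linarith
  obtain ⟨C0, hC0, hB⟩ := hB (ε / 2) (by linarith)
  obtain ⟨CH, hCH, hLH⟩ := lhX d
  obtain ⟨CD, hCD, hLD⟩ := ldX d b G hb hdG
  set G2 : ℝ := G + 1 + b with hG2
  have hG : 0 < G2 := by rw [hG2]; linarith
  set c : ℝ := ε / G2 with hc
  have hc0 : 0 < c := by positivity
  set y : ℝ := Real.exp (-(c * Real.log 2)) with hy
  have hl2 : 0 < Real.log 2 := Real.log_pos (by norm_num)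
  have hy0 : 0 ≤ y := (Real.exp_pos _).le
  have hy1 : y < 1 := by
    rw [hy, Real.exp_lt_one_iff]
    nlinarith [mul_pos hc0 hl2]
  set E1 : ℝ := Real.exp ((CH + G2 + 1) / G2) with hE1
  set E2 : ℝ := Real.exp ((CD + G2 + 1) / G2) * Real.exp (c * Real.log 2) with hE2
  have hE10 : 0 < E1 := Real.exp_pos _
  have hE20 : 0 < E2 := by positivity
  set S1 : ℝ := 1 + 4 * (2 + E1 * (1 / (1 - y))) with hS1
  set S2 : ℝ := 3 ^ d * (2 + E2 * (1 / (1 - y))) with hS2
  have hyy : 0 < 1 / (1 - y) := by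
    apply div_pos one_pos; linarith
  set S : ℝ := max S1 S2 with hS
  have hS1' : 0 < S1 := by positivity
  refine ⟨C0 * (1 + S) + 1, by positivity, ?_⟩
  intro n Ω _ A D hfam p hp
  have hn : 1 ≤ n := hfam.pos
  have hn0 : (1 : ℝ) ≤ n := by exact_mod_cast hn
  have hln : 0 ≤ Real.log n := Real.log_nonneg hn0
  have key : sSup (VVX d b G ε n) ≤ C0 * (1 + S) + 1 := by
    set η : ℝ := 1 / (1 + Real.log n) with hη
    have hη0 : 0 < η := by positivity
    have hη1 : η ≤ 1 := by
      rw [hη, div_le_one (by linarith)]; linarith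
    obtain ⟨x, ⟨n', hn', Ω', _, A', D', hfam', p', hp', rfl⟩, hx⟩ :=
      exists_lt_of_lt_csSup (VVX_ne n hn) (by linarith : sSup (VVX d b G ε n) - η < sSup (VVX d b G ε n))
    have hn1 : 1 ≤ n' := hfam'.pos
    have hn'0 : (1 : ℝ) ≤ n' := by exact_mod_cast hn1
    have hln' : 0 ≤ Real.log n' := Real.log_nonneg hn'0
    have hlle : Real.log n' ≤ Real.log n := Real.log_le_log (by linarith) (by exact_mod_cast hn')
    set K : ℕ := Nat.log 2 n' with hK
    have hKn : 2 ^ K ≤ n' := Nat.pow_log_le_self 2 (by omega)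
    have hKl : (K : ℝ) * Real.log 2 ≤ Real.log n' := by
      have h1 : (((2 ^ K : ℕ)) : ℝ) ≤ n' := by exact_mod_cast hKn
      have h2 := Real.log_le_log (by positivity) h1
      push_cast at h2
      rwa [Real.log_pow] at h2
    have hηK : ((K + 1 : ℕ) : ℝ) * η ≤ 2 := by
      refine le_trans ?_ (eta_sum hn1)
      refine mul_le_mul_of_nonneg_left ?_ (Nat.cast_nonneg _)
      rw [hη]
      exact one_div_le_one_div_of_le (by linarith) (by linarith)
    -- heights
    have hsep : SepM p' S := by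
      have h1 := hSH n' Ω' p' hn1 hp' (fun k => η + E1 * y ^ (K - k)) (by
        intro k hk a
        have hk' : 2 ^ k ≤ n' := (Nat.pow_le_pow_right (by norm_num) hk).trans hKn
        refine le_trans (le_of_eq (im_decide p' (fun z => (z.2 : ℕ) / 2 ^ k = a z.1)).symm) ?_
        have h2 := two_classX (A := A') hb0 hGn hε.le hn hn' hfam' hp' hη0 hx
          (fun z => decide ((z.2 : ℕ) / 2 ^ k = a z.1)) (C' := CH)
          (x := Real.log n' - k * Real.log 2) (by
            intro h0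
            have h3 := hLH b G (sSup (VVX d b G ε n) + ε * Real.log ((2 ^ k : ℕ) : ℝ)) k hb hdG (by
              intro Ω2 _ A2 D2 hf2
              exact OrX_of_sup hb0 hGn hε.le hn (hk'.trans hn') hf2) n' Ω' A' D' hfam' hk'
              (cd p' (fun z => decide ((z.2 : ℕ) / 2 ^ k = a z.1)) true) (cd_law hp' _ h0)
              ⟨a, fun z hz => (cd_supp hz).1⟩
            unfold LamX
            push_cast at h3
            rw [Real.log_pow] at h3
            have e : ε * (Real.log n' - (Real.log n' - k * Real.log 2)) = ε * (k * Real.log 2) := by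
              ring
            rw [e]
            linarith)
        refine h2.trans ?_
        have h4 : Real.exp (-(ε / (G + 1 + b)) * (Real.log n' - k * Real.log 2)) ≤
            y ^ (K - k) := by
          rw [hy, ← Real.exp_nat_mul]
          apply Real.exp_le_exp.2
          have h5 : ((K - k : ℕ) : ℝ) = K - k := by
            rw [Nat.cast_sub hk]
          rw [h5]
          have h6 : ε / (G + 1 + b) = c := rfl
          rw [h6]
          nlinarith [mul_le_mul_of_nonneg_left hKl hc0.le]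
        have h7 : Real.exp ((CH + (G + 1 + b) + 1) / (G + 1 + b)) = E1 := rfl
        rw [h7]
        have := mul_le_mul_of_nonneg_left h4 hE10.le
        linarith)
      obtain ⟨s, hs1, hs2⟩ := h1
      refine ⟨s, hs1, hs2.trans ?_⟩
      refine le_trans ?_ (le_max_left S1 S2)
      rw [Finset.sum_add_distrib, Finset.sum_const, Finset.card_range, nsmul_eq_mul,
        ← Finset.mul_sum]
      have h8 : ∑ k ∈ Finset.range (Nat.log 2 n' + 1), y ^ (K - k) ≤ 1 / (1 - y) := by
        have h9 := Finset.sum_range_reflect (fun k => y ^ k) (K + 1)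
        have h10 : ∑ k ∈ Finset.range (K + 1), y ^ (K - k) = ∑ k ∈ Finset.range (K + 1), y ^ k := by
          rw [← h9]
          refine Finset.sum_congr rfl fun k _ => ?_
          congr 1
        rw [← hK, h10]
        exact geo_sum hy0 hy1 K
      have h11 := mul_le_mul_of_nonneg_left h8 hE10.le
      rw [hS1]
      linarith
    -- directions
    have hang : ang A' D' p' ≤ S := by
      have h1 := hSD d n' Ω' A' D' p' hfam' hp' (fun k => η + E2 * y ^ k) (by
        intro k hk κ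
        have hk' : 2 ^ k ≤ n' := (Nat.pow_le_pow_right (by norm_num) hk).trans hKn
        refine le_trans (le_of_eq (im_decide p'
          (fun z => (fun i => ⌊(2 : ℝ) ^ k * D' z.1 i⌋) = κ (ce A' D' z))).symm) ?_
        have hn2 : (n' + 2 ^ k - 1) / 2 ^ k ≤ n := by
          refine le_trans ?_ hn'
          apply Nat.div_le_of_le_mul
          obtain ⟨t, ht⟩ : ∃ t, 2 ^ k = t + 1 := ⟨2 ^ k - 1, by
            have : 1 ≤ 2 ^ k := Nat.one_le_two_pow
            omega⟩
          obtain ⟨s, hs⟩ : ∃ s, n' = s + 1 := ⟨n' - 1, by omega⟩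
          rw [ht, hs]
          have : s + 1 + (t + 1) - 1 = s + t + 1 := by omega
          rw [this]
          nlinarith [Nat.zero_le (t * s)]
        have h2 := two_classX (A := A') hb0 hGn hε.le hn hn' hfam' hp' hη0 hx
          (fun z => decide ((fun i => ⌊(2 : ℝ) ^ k * D' z.1 i⌋) = κ (ce A' D' z))) (C' := CD)
          (x := k * Real.log 2 - Real.log 2) (by
            intro h0
            have h3 := hLD (sSup (VVX d b G ε n) +
              ε * Real.log (((n' + 2 ^ k - 1) / 2 ^ k : ℕ) : ℝ)) k n' hk' (by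
              intro Ω2 _ A2 D2 hf2
              exact OrX_of_sup hb0 hGn hε.le hn hn2 hf2) Ω' A' D' hfam'
              (cd p' (fun z => decide ((fun i => ⌊(2 : ℝ) ^ k * D' z.1 i⌋) = κ (ce A' D' z))) true)
              (cd_law hp' _ h0) ⟨κ, fun z hz => (cd_supp hz).1⟩
            unfold LamX
            have h4 := mul_le_mul_of_nonneg_left (log_scale hk' hn1) hε.le
            linarith)
        refine h2.trans (le_of_eq ?_)
        have h7 : Real.exp ((CD + (G + 1 + b) + 1) / (G + 1 + b)) *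
            Real.exp (-(ε / (G + 1 + b)) * (k * Real.log 2 - Real.log 2)) = E2 * y ^ k := by
          have h6 : ε / (G + 1 + b) = c := rfl
          have h8 : Real.exp ((CD + (G + 1 + b) + 1) / (G + 1 + b)) =
            Real.exp ((CD + G2 + 1) / G2) := rfl
          have h9 : y ^ k = Real.exp (k * -(c * Real.log 2)) := by
            rw [Real.exp_nat_mul]
          have h10 : E2 * y ^ k = Real.exp ((CD + G2 + 1) / G2) *
              (Real.exp (c * Real.log 2) * Real.exp (k * -(c * Real.log 2))) := by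
            rw [h9, hE2, mul_assoc]
          rw [h10, h8, h6, ← Real.exp_add (c * Real.log 2)]
          congr 2
          ring
        rw [h7])
      refine h1.trans ?_
      refine le_trans ?_ (le_max_right S1 S2)
      rw [Finset.sum_add_distrib, Finset.sum_const, Finset.card_range, nsmul_eq_mul,
        ← Finset.mul_sum]
      have h8 := geo_sum hy0 hy1 (Nat.log 2 n')
      have h11 := mul_le_mul_of_nonneg_left h8 hE20.le
      rw [hS2]
      exact mul_le_mul_of_nonneg_left (by linarith) (by positivity)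
    have h1 := hB n' Ω' A' D' hfam' p' hp' S hsep hang
    have h2 := mi_nonneg hp'
    unfold LamX at hx
    have h3 : ε / 2 * Real.log n' ≤ ε * Real.log n' := by nlinarith
    linarith
  have h1 := LamX_sup (A := A) hb0 hGn hε.le hn le_rfl hfam hp
  unfold LamX at h1
  linarith

theorem extX (d : ℕ) (b : ℝ) (hb : 1 ≤ b) (hB : AllBX d b) : AllX d b :=
  extXG d b d hb le_rfl hB

end Pool.Agent.K3h18.HX
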