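import Pool.Agent.K3h18.HX.Tube
import Pool.Agent.Y254.HK.Final

/-!
# Tubes and the Kakeya maximal function, without loss
-/

set_option autoImplicit false

open MeasureTheory Set Metric
open scoped ENNReal NNReal

namespace Pool.Agent.K3h18.HX
open Pool.Agent.Y254 (mult)
open Pool.Agent.Y254.EL (LF LoB EuF loss_removal allwP_of_LF)
open Pool.Agent.W46.KK (tube)
open Pool.Agent.Y244.HM (WeakP StrongP strongP)
open Pool.Agent.Y244.WR (TubeQ weakQ)
open Pool.Agent.Y254HK (gg gg_open)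

/-- From the oracle with losses at one exponent to Euclidean tubes without loss at larger
exponents. -/
theorem euF_of_allX {d : ℕ} (hd : 2 ≤ d) {c' c : ℝ} (hc1 : 1 < c') (hcc : c' < c)
    (h : AllX d c') : ∃ C : ℝ, 0 < C ∧ EuF d (1 + c / d) C := by
  have hdr : (2 : ℝ) ≤ d := by exact_mod_cast hd
  have hd0 : (0 : ℝ) < d := by linarith
  have hq : 1 + c' / d < 1 + c / d := by gcongr
  have hq0 : 1 + 1 / (d : ℝ) ≤ 1 + c' / d := by gcongr
  set q : ℝ := 1 + c / d with hqd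
  rcases lt_or_ge (1 + 2 / ((d + 1 : ℕ) : ℝ)) q with h1 | h1
  · obtain ⟨A, hA, hw⟩ := Pool.Agent.Y254.wolff (n := d + 1) (by omega) h1
    refine ⟨A, hA, ?_⟩
    intro δ hδ hδ1 ι _ a e he hsep
    have h2 := hw δ hδ hδ1 a e he hsep
    have e1 : (((d + 1 : ℕ) : ℝ) - 1) = d := by push_cast; ring
    rw [e1, Nat.add_sub_cancel] at h2
    exact h2
  · have hq2 : q ≤ 2 := by
      refine h1.trans ?_
      have : 2 / ((d + 1 : ℕ) : ℝ) ≤ 1 := by
        rw [div_le_one (by positivity)]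
        push_cast
        linarith
      linarith
    have hLF : ∀ R : ℝ, 1 ≤ R → ∃ C : ℝ, 0 ≤ C ∧ LF d R q C := fun R hR =>
      loss_removal (by omega) hR hq0 hq hq2 fun ε hε => tubeX (by omega) hc1 h hR hε
    have hq' : 1 + 1 / (d : ℝ) ≤ q := by linarith
    obtain ⟨C, hC, hT⟩ := Pool.Agent.Y244.HM.tubeP (by omega) hq'
      (allwP_of_LF (by omega) hq' hLF)
    refine ⟨C, hC, ?_⟩
    intro δ hδ hδ1 ι _ a e he hsep
    have h2 := hT δ hδ hδ1.le ι a e he hsep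
    have e1 : C * δ ^ (d : ℝ) * (Fintype.card ι : ℝ) ^ (q - 1 / (d : ℝ)) =
        C * (δ ^ d * (Fintype.card ι : ℝ) ^ (q - 1 / (d : ℝ))) := by
      rw [Real.rpow_natCast]; ring
    rw [e1] at h2
    exact h2

/-- The oracle in dimension `d ≥ 9`. -/
theorem allX9 {d : ℕ} (hd : 9 ≤ d) {c : ℝ} (hc1 : 1 < c) (hc : 0 < gg d c) : AllX d c := by
  have hdR : (9 : ℝ) ≤ d := by exact_mod_cast hd
  have hd0 : (0 : ℝ) < d := by linarith
  unfold gg at hc
  -- lower bound for `c`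
  have hc8 : 8 / 5 ≤ c := by
    by_contra hlt
    push Not at hlt
    have h1 : c ^ 3 - 4 * c + 2 ≤ -(3 / 10) := by
      nlinarith [mul_nonneg (by linarith : 0 ≤ c - 1) (by linarith : 0 ≤ 8 / 5 - c),
        mul_nonneg (mul_nonneg (by linarith : 0 ≤ c - 1) (by linarith : 0 ≤ 8 / 5 - c))
          (by linarith : 0 ≤ c)]
    have h2 : (d : ℝ) * (c ^ 3 - 4 * c + 2) ≤ 9 * (-(3 / 10)) := by
      nlinarith
    have h3 : c * (3 * c - 1 - c ^ 2) ≤ 2 := by
      have h4 : 3 * c - 1 - c ^ 2 ≤ 5 / 4 := by nlinarith [sq_nonneg (c - 3 / 2)]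
      have h5 : c * (3 * c - 1 - c ^ 2) ≤ c * (5 / 4) := mul_le_mul_of_nonneg_left h4 (by linarith)
      linarith
    linarith
  refine iterX (by omega) hc1 ?_
  intro y hy hy2
  have hy3 : y < 2 := by
    refine lt_of_le_of_lt hy2 ?_
    rw [div_lt_iff₀ (by linarith)]
    linarith
  refine ⟨1, 0, 0, zero_le_one, le_rfl, le_rfl, ?_, ?_⟩
  · have h1 : 0 ≤ y ^ 2 - 1 := by nlinarith
    have h2 : 0 ≤ ((d : ℝ) - 9) * (y ^ 2 - 1) := mul_nonneg (by linarith) h1
    nlinarith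
  · have h5 : (y - c) * (1 - d) + (c - 1) * (d * (y ^ 3 - 4 * y + 2) + (y * (3 * y - 1 - y ^ 2))) -
        (y - 1) * (d * (c ^ 3 - 4 * c + 2) + (c * (3 * c - 1 - c ^ 2))) =
        (y - c) * (c - 1) * (y - 1) * ((d - 1) * (1 + c + y) + 3) := by
      ring
    have h6 : 0 ≤ (y - c) * (c - 1) * (y - 1) * ((d - 1) * (1 + c + y) + 3) := by
      have a1 : 0 ≤ ((d : ℝ) - 1) * (1 + c + y) := mul_nonneg (by linarith) (by linarith)
      have a2 : 0 ≤ (y - c) * (c - 1) * (y - 1) :=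
        mul_nonneg (mul_nonneg (by linarith) (by linarith)) (by linarith)
      exact mul_nonneg a2 (by linarith)
    have h7 : (y - c) * (1 - (d : ℝ)) ≤ 0 :=
      mul_nonpos_of_nonneg_of_nonpos (by linarith) (by linarith)
    have h9 : 0 < (y - 1) * (d * (c ^ 3 - 4 * c + 2) + (c * (3 * c - 1 - c ^ 2))) :=
      mul_pos (by linarith) hc
    have h10 : 0 < (c - 1) * (d * (y ^ 3 - 4 * y + 2) + (y * (3 * y - 1 - y ^ 2))) := by linarith
    have h11 : 0 < d * (y ^ 3 - 4 * y + 2) + (y * (3 * y - 1 - y ^ 2)) :=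
      (mul_pos_iff_of_pos_left (by linarith : 0 < c - 1)).1 h10
    linarith

/-- The oracle in dimension `7`. -/
theorem allX7 : AllX 7 (161037 / 100000) := by
  refine iterX (by norm_num) (by norm_num) ?_
  intro y hy hy2
  have hy3 : y ≤ 7 / 4 := by
    refine hy2.trans (le_of_eq ?_)
    norm_num
  refine ⟨1, 2438 / 3125, 0, zero_le_one, by norm_num, le_rfl, ?_, ?_⟩
  · push_cast
    nlinarith
  · push_cast
    nlinarith [mul_nonneg (by linarith : 0 ≤ y - 161037 / 100000) (by linarith : 0 ≤ y),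
      mul_nonneg (mul_nonneg (by linarith : 0 ≤ y - 161037 / 100000) (by linarith : 0 ≤ y))
        (by linarith : 0 ≤ y)]

/-- The oracle in dimension `5`. -/
theorem allX5 : AllX 5 (158728 / 100000) := by
  refine iterX (by norm_num) (by norm_num) ?_
  intro y hy hy2
  have hy3 : y ≤ 5 / 3 := by
    refine hy2.trans (le_of_eq ?_)
    norm_num
  refine ⟨0, 1, 943 / 12500, le_rfl, zero_le_one, by norm_num, ?_, ?_⟩
  · push_cast
    nlinarith
  · push_cast
    nlinarith [mul_nonneg (by linarith : 0 ≤ y - 158728 / 100000) (by linarith : 0 ≤ y)]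

/-- The admissible slopes in dimension `n`. -/
def Slope (n : ℕ) (c : ℝ) : Prop :=
  (10 ≤ n ∧ 1 < c ∧ 0 < ((n : ℝ) - 1) * (c ^ 3 - 4 * c + 2) + c * (3 * c - 1 - c ^ 2)) ∨
  (n = 8 ∧ 1.61037 < c) ∨ (n = 6 ∧ 1.58728 < c)

theorem Slope.all {d : ℕ} {c : ℝ} (h : Slope (d + 1) c) : ∃ c' : ℝ, 1 < c' ∧ c' < c ∧ AllX d c' := by
  have e1 : (((d + 1 : ℕ) : ℝ) - 1) = d := by push_cast; ring
  rcases h with ⟨h1, h2, h3⟩ | ⟨h1, h2⟩ | ⟨h1, h2⟩
  · rw [e1] at h3
    obtain ⟨c', a1, a2, a3⟩ := gg_open h2 h3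
    exact ⟨c', a1, a2, allX9 (by omega) a1 a3⟩
  · obtain rfl : d = 7 := by omega
    exact ⟨161037 / 100000, by norm_num, by norm_num at h2 ⊢; linarith, allX7⟩
  · obtain rfl : d = 5 := by omega
    exact ⟨158728 / 100000, by norm_num, by norm_num at h2 ⊢; linarith, allX5⟩

theorem Slope.two_le {d : ℕ} {c : ℝ} (h : Slope (d + 1) c) : 5 ≤ d := by
  rcases h with ⟨h1, -⟩ | ⟨h1, -⟩ | ⟨h1, -⟩ <;> omega

/-- Tubes, without loss, for all exponents `q ≥ 1 + c / d`. -/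
theorem tubesX {d : ℕ} {c q : ℝ} (h : Slope (d + 1) c) (hq : 1 + c / d ≤ q) :
    ∃ C : ℝ, 0 < C ∧ EuF d q C := by
  have hd := h.two_le
  have hdR : (5 : ℝ) ≤ d := by exact_mod_cast hd
  have hd0 : (0 : ℝ) < d := by linarith
  obtain ⟨c', h1, h2, h3⟩ := h.all
  obtain ⟨y, hy⟩ : ∃ y : ℝ, y = (q - 1) * d := ⟨_, rfl⟩
  have hqy : q = 1 + y / d := by rw [hy]; field_simp; ring
  have hcy : c ≤ y := by
    rw [hqy] at hq
    have h1 : c / d ≤ y / d := by linarith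
    exact (div_le_div_iff_of_pos_right hd0).1 h1
  rw [hqy]
  exact euF_of_allX (by omega) h1 (lt_of_lt_of_le h2 hcy) h3

/-- Maximal estimates, without loss. -/
theorem maxX {d : ℕ} {c : ℝ} (h : Slope (d + 1) c) : WeakP d c ∧ StrongP d c := by
  have hd := h.two_le
  obtain ⟨c', h1, h2, h3⟩ := h.all
  obtain ⟨C, hC, hF⟩ := euF_of_allX (by omega) h1 h2 h3
  have hT : TubeQ d (1 + c / d) := by
    refine ⟨C, hC, ?_⟩
    intro δ hδ hδ1 ι _ a e he hsep
    have h2 := hF δ hδ hδ1 ι a e he hsep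
    have e1 : C * δ ^ (d : ℝ) * (Fintype.card ι : ℝ) ^ (1 + c / (d : ℝ) - 1 / (d : ℝ)) =
        C * (δ ^ d * (Fintype.card ι : ℝ) ^ (1 + c / (d : ℝ) - 1 / (d : ℝ))) := by
      rw [Real.rpow_natCast]; ring
    rw [e1]
    exact h2
  have h1 := weakQ (by omega) (by linarith) hT Pool.Agent.W131.HM.CAP Pool.Agent.W131.HM.VOL
  exact ⟨h1, strongP (by omega) (by linarith) h1⟩

end Pool.Agent.K3h18.HX
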