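import Pool.Agent.Y721.HK.FAf

/-!
# The line `l3` from the point `Z` and the cell of `l1` at the height `s1`
-/

set_option autoImplicit false

open Finset
open scoped Classical

namespace Pool.Agent.K3h18.HX
open Pool.Agent.W904.AK Pool.Agent.W46.HD Pool.Agent.W46.HM Pool.Agent.Y244.HM
  Pool.Agent.W597.HD Pool.Agent.Y254HK Pool.Agent.Y721.HK

/-- `l3` from the point `Z` and the cell of `l1` at the height `s1`. -/
def G3c {Ω : Type} {d n : ℕ} (A D : Ω → Fin d → ℝ) {Θ : Type} [Fintype Θ] (q : Θ → ℝ)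
    (l1 l3 : Θ → Ω) (s0 s1 t t' : Θ → Fin n) (E : ℝ) : Prop :=
  H q (fun z => ((XX A D l1 l3 s0 s1 t t' z, s1 z, cell A D (s1 z) (l1 z)), l3 z)) ≤
    H q (fun z => (XX A D l1 l3 s0 s1 t t' z, s1 z, cell A D (s1 z) (l1 z))) + E

theorem t_g3c : Fact fun _ _ _ A D _ _ q l1 _ l3 s0 s1 t t' _ _ E =>
    G3c A D q l1 l3 s0 s1 t t' E := by
  intro d ε hε
  refine ⟨20 * ((d : ℝ) + 1), by positivity, ?_⟩
  intro n Ω _ A D hfam p S hp Θ _ q l1 l2 l3 s0 s1 t t' τ v hc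
  have hq := hc.law
  have hCOST := Pool.Agent.W85.HD.COST
  have hG3 := Pool.Agent.W975.HD.G3
  have hG9 := Pool.Agent.W505.HD.G9
  obtain ⟨Y, hY⟩ : ∃ Y : Θ → ℤ, Y = fun z => yy (s0 z) (s1 z) (t z) (t' z) := ⟨_, rfl⟩
  obtain ⟨Z, hZ⟩ : ∃ Z : Θ → Fin d → ℤ, Z = fun z => cz A D (s1 z) (Y z) (l1 z) (l3 z) := ⟨_, rfl⟩
  have hXX : XX A D l1 l3 s0 s1 t t' = fun z => (((s1 z : ℕ) : ℤ) + Y z, Z z) := by
    rw [hZ, hY]; rfl
  obtain ⟨e1, he1⟩ : ∃ e1, e1 = EE q (fun z => psi n (t z) (s0 z)) := ⟨_, rfl⟩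
  obtain ⟨e2, he2⟩ : ∃ e2, e2 = EE q (fun z => psi n (t z) (s1 z)) := ⟨_, rfl⟩
  obtain ⟨e3, he3⟩ : ∃ e3, e3 = EE q (fun z => psi n (t' z) (s0 z)) := ⟨_, rfl⟩
  have b1 : e1 ≤ S := (he1 ▸ hc.c2 : e1 ≤ sep p).trans hc.sep_le
  have b2 : e2 ≤ S := (he2 ▸ hc.c3 : e2 ≤ sep p).trans hc.sep_le
  have b3 : e3 ≤ S := (he3 ▸ hc.c4 : e3 ≤ sep p).trans hc.sep_le
  have hpn : ∀ (i j : Fin n), 0 ≤ psi n i j := fun i j => psi_nonneg i.2 j.2
  have n1 : 0 ≤ e1 := by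
    rw [he1]; exact Finset.sum_nonneg fun z _ => mul_nonneg (hq.nonneg z) (hpn _ _)
  have hS : 0 ≤ S := n1.trans b1
  have hd : (0 : ℝ) ≤ d := Nat.cast_nonneg d
  have hlog : 0 ≤ ε * Real.log n :=
    mul_nonneg hε.le (Real.log_nonneg (by exact_mod_cast hfam.pos))
  have hE2 : ∀ x : ℝ, x ≤ 12 + 5 * S →
      d * x ≤ ε * Real.log n + 20 * ((d : ℝ) + 1) * (1 + S) := by
    intro x hx
    have h1 := mul_le_mul_of_nonneg_left hx hd
    nlinarith
  have h9 := fun z => hG9 n (s0 z) (s1 z) (t z) (t' z) (v z) (τ z) (s0 z).2 (s1 z).2 (t z).2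
    (t' z).2 (v z).2 (τ z).2
  have h9q : ∀ z, phi n (Y z) ≤ 3 + psi n (t' z) (s0 z) + psi n (t z) (s1 z) +
      psi n (t z) (s0 z) := by
    intro z
    rw [hY]; exact (h9 z).2.1
  show H q (fun z => ((XX A D l1 l3 s0 s1 t t' z, s1 z, cell A D (s1 z) (l1 z)), l3 z)) ≤
    H q (fun z => (XX A D l1 l3 s0 s1 t t' z, s1 z, cell A D (s1 z) (l1 z))) +
      (ε * Real.log n + 20 * ((d : ℝ) + 1) * (1 + S))
  rw [hXX]
  have h := cost hCOST hq
    (f := fun z => ((((s1 z : ℕ) : ℤ) + Y z, Z z), s1 z, cell A D (s1 z) (l1 z))) (g := l3)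
    (k := fun z => (((((s1 z : ℕ) : ℤ) + Y z, Z z), s1 z, cell A D (s1 z) (l1 z)), l3 z))
    (fun z => d * (3 + phi n (Y z))) (by
      intro x y _ _ h; exact h) (by
      intro x hx
      refine ⟨Finset.univ.filter fun ω => ∃ u : Fin d → ℝ,
        (∀ i, ⌊u i⌋ = cell A D (s1 x) (l1 x) i) ∧ ∀ i, ⌊u i + (Y x : ℝ) * D ω i⌋ = Z x i, ?_, ?_⟩
      · intro y hy h1
        simp only [Prod.mk.injEq] at h1
        obtain ⟨⟨h2, h3⟩, h5, h4⟩ := h1
        have h2' : Y y = Y x := by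
          rw [h5] at h2
          exact add_left_cancel h2
        rw [Finset.mem_filter]
        refine ⟨Finset.mem_univ _, fun i => A (l1 y) i + ((s1 y : ℕ) : ℝ) * D (l1 y) i,
          fun i => ?_, fun i => ?_⟩
        · rw [← h4]; rfl
        · rw [← h3, ← h2', hZ]; rfl
      · refine hG3 d n Ω D hfam (Y x) (cell A D (s1 x) (l1 x)) (Z x) _ ?_
        intro ω hω
        exact (Finset.mem_filter.mp hω).2)
  have h2 : EE q (fun z => d * (3 + phi n (Y z))) ≤ d * (6 + e3 + e2 + e1) := by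
    have h3 : EE q (fun z => d * (3 + phi n (Y z))) ≤
        EE q (fun z => d * (((6 + psi n (t' z) (s0 z)) + psi n (t z) (s1 z)) +
          psi n (t z) (s0 z))) := by
      refine EE_mono hq fun z _ => ?_
      have h5 := h9q z
      apply mul_le_mul_of_nonneg_left _ hd
      linarith
    refine h3.trans (le_of_eq ?_)
    rw [EE_mul, EE_add (fun z => (6 + psi n (t' z) (s0 z)) + psi n (t z) (s1 z))
      (fun z => psi n (t z) (s0 z)), EE_add (fun z => (6 + psi n (t' z) (s0 z)))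
      (fun z => psi n (t z) (s1 z)), EE_add (fun z => (6 : ℝ)) (fun z => psi n (t' z) (s0 z)),
      EE_const hq, he1, he2, he3]
  have h3 := hE2 (6 + e3 + e2 + e1) (by linarith)
  linarith

end Pool.Agent.K3h18.HX
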