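import Pool.Agent.K3h18.HX.Core
import Pool.Agent.K3h18.HX.Ext
import Pool.Agent.Y254.HK.Iter

/-!
# The iteration
-/

set_option autoImplicit false
set_option linter.unusedVariables false

open Finset
open scoped Classical

namespace Pool.Agent.K3h18.HX
open Pool.Agent.W904.AK Pool.Agent.W46.HD Pool.Agent.W46.HM Pool.Agent.Y244.HM
  Pool.Agent.W597.HD Pool.Agent.Y254HK

theorem AllX.mono {d : ℕ} {b c : ℝ} (hbc : b ≤ c) (h : AllX d b) : AllX d c := by
  intro ε hε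
  obtain ⟨C, hC, h⟩ := h ε hε
  refine ⟨C, hC, ?_⟩
  intro n Ω _ A D hfam p hp
  have h1 := h n Ω A D hfam p hp
  have h2 : b * (hh A D p + mi p) ≤ c * (hh A D p + mi p) :=
    mul_le_mul_of_nonneg_right hbc (add_nonneg (hh_nonneg hp) (mi_nonneg hp))
  linarith

theorem lam_le_log {Ω : Type} [Fintype Ω] {n : ℕ} {p : Ω × Fin n → ℝ} (hp : IsLaw p) :
    lam p ≤ Real.log n := by
  have h := H_mono hp (Det.comp p (id : Ω × Fin n → Ω × Fin n) Prod.fst)
  unfold lam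
  have e : H p (fun x : Ω × Fin n => (id x).1) = H p Prod.fst := rfl
  linarith

theorem AllX_closed {d : ℕ} {m : ℝ} (h : ∀ c : ℝ, m < c → AllX d c) : AllX d m := by
  intro ε hε
  set η : ℝ := ε / (2 * (d + 1)) with hη
  have hη0 : 0 < η := by positivity
  have hηd : η * (d + 1) = ε / 2 := by rw [hη]; field_simp
  obtain ⟨C, hC, h⟩ := h (m + η) (by linarith) (ε / 2) (by linarith)
  refine ⟨C + ε / 2, by positivity, ?_⟩
  intro n Ω _ A D hfam p hp
  have h1 := h n Ω A D hfam p hp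
  have h2 := hh_le_aa (A := A) (D := D) hp
  have h3 := aa_le hfam hp
  have hml := mi_le_lam hp
  have hll := lam_le_log hp
  have hN : 0 ≤ Real.log n := Real.log_nonneg (by exact_mod_cast hfam.pos)
  have h4 : η * (hh A D p + mi p) ≤ η * ((d + 1) * (1 + Real.log n)) :=
    mul_le_mul_of_nonneg_left (by linarith) hη0.le
  have h5 : η * ((d + 1) * (1 + Real.log n)) = (ε / 2) * (1 + Real.log n) := by
    rw [← hηd]; ring
  have h7 : (m + η) * (hh A D p + mi p) = m * (hh A D p + mi p) + η * (hh A D p + mi p) := by ring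
  rw [h7] at h1
  linarith

/-- Wolff's bound starts the iteration. -/
theorem startX {d : ℕ} (hd : 1 ≤ d) : AllX d (2 * d / (d + 1)) := by
  have hdR : (1 : ℝ) ≤ d := by exact_mod_cast hd
  have hd0 : (0 : ℝ) < d := by linarith
  have e : (2 * d / (d + 1) : ℝ) * (1 + 1 / d) = 2 := by field_simp
  have e2 : (d : ℝ) * (1 + 1 / d) = d + 1 := by field_simp
  refine extX d _ (by rw [le_div_iff₀ (by linarith)]; linarith) ?_
  refine CoreX.step hd (c := 2 * d / (d + 1)) zero_le_one (by positivity) (le_of_eq e.symm) ?_ ?_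
    (coreW d)
  · rw [e2]; linarith
  · rw [e2, e]; linarith

/-- The conditions at the exponent `y`. -/
def Good (d y : ℝ) : Prop := ∃ α β γ : ℝ, 0 ≤ α ∧ 0 ≤ β ∧ 0 ≤ γ ∧
  α * (5 * y ^ 2 - d * (y ^ 2 - 1)) ≤ β * (2 * d * (y - 1) - 2 * y - 3) + γ * (d - 1) ∧
  0 < d * (α * (y ^ 3 - 4 * y + 2) + β * (2 * y ^ 2 - 4 * y + 1) + γ * (y - 2)) +
    y * (α * (3 * y - 1 - y ^ 2) + β + γ)

/-- One step. -/
theorem stepX {d : ℕ} (hd : 1 ≤ d) {m : ℝ} (hm1 : 1 < m) (hm2 : m < 2) (h : AllX d m)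
    (hG : Good d m) : ∃ c : ℝ, 1 ≤ c ∧ c < m ∧ AllX d c := by
  obtain ⟨α, β, γ, hα, hβ, hγ, hK, hF⟩ := hG
  have hdR : (1 : ℝ) ≤ d := by exact_mod_cast hd
  have hd0 : (0 : ℝ) < d := by linarith
  have h1 := CoreX.comb hα hβ (coreH hm1 hm2 h) (coreT hm1 h)
  have h2 := CoreX.comb zero_le_one hγ h1 (coreW d)
  obtain ⟨M0, hM0⟩ : ∃ M : ℝ, M = 1 * (α * (m ^ 2 + 3 * m - 2) + β * (2 * m)) + γ * 1 := ⟨_, rfl⟩
  obtain ⟨B0, hB0⟩ : ∃ M : ℝ, M = 1 * (α * (3 * m - 1 - m ^ 2) + β * 1) + γ * 1 := ⟨_, rfl⟩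
  obtain ⟨P, hP⟩ : ∃ M : ℝ, M = 1 * (α * (3 * m ^ 2 + 2 * m - 2) + β * (4 * m - 1)) + γ * 2 :=
    ⟨_, rfl⟩
  rw [← hM0, ← hB0, ← hP] at h2
  have hP0 : 0 ≤ P := by
    rw [hP]
    have := mul_nonneg hα (by nlinarith : 0 ≤ 3 * m ^ 2 + 2 * m - 2)
    have := mul_nonneg hβ (by linarith : 0 ≤ 4 * m - 1)
    linarith
  have hB1 : 0 ≤ B0 := by
    rw [hB0]
    have := mul_nonneg hα (by nlinarith : 0 ≤ 3 * m - 1 - m ^ 2)
    linarith
  obtain ⟨M, hM⟩ : ∃ M : ℝ, M = M0 + B0 / d := ⟨_, rfl⟩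
  have hdM : (d : ℝ) * M = d * M0 + B0 := by rw [hM]; field_simp
  have hF2 : d * P < m * (d * M) := by
    rw [hdM, hM0, hB0, hP]
    linarith
  have hPM : P < m * M := by
    have : d * P < d * (m * M) := by linarith
    exact lt_of_mul_lt_mul_left this hd0.le
  have hMpos : 0 < M := by
    by_contra hc
    push Not at hc
    have : m * M ≤ 0 := mul_nonpos_of_nonneg_of_nonpos (by linarith) hc
    linarith
  have hc1 : P ≤ max (P / M) 1 * M := by
    have h3 : P / M * M ≤ max (P / M) 1 * M :=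
      mul_le_mul_of_nonneg_right (le_max_left _ _) hMpos.le
    have h4 : P / M * M = P := by field_simp
    linarith
  have hm0 : 0 ≤ α * (m - 1) ^ 2 := by positivity
  refine ⟨max (P / M) 1, le_max_right _ _, max_lt ?_ hm1, extX d _ (le_max_right _ _) ?_⟩
  · rw [div_lt_iff₀ hMpos]; exact hPM
  · refine CoreX.step hd (c := max (P / M) 1) hB1 ?_ ?_ ?_ ?_ h2
    · rw [← hM]; exact hMpos
    · rw [← hM]; exact hc1
    · rw [← hM, hdM, hM0, hB0]
      linarith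
    · rw [← hM, hdM, hM0, hB0]
      generalize max (P / M) 1 * M = X at hc1
      linarith

/-- The iteration. -/
theorem iterX {d : ℕ} (hd : 1 ≤ d) {c : ℝ} (hc1 : 1 < c)
    (hG : ∀ y : ℝ, c ≤ y → y ≤ 2 * d / (d + 1) → Good d y) : AllX d c := by
  have hdR : (1 : ℝ) ≤ d := by exact_mod_cast hd
  have hd0 : (0 : ℝ) < d := by linarith
  have hst := startX hd
  obtain ⟨y0, hy0⟩ : ∃ y : ℝ, y = 2 * d / (d + 1) := ⟨_, rfl⟩
  rw [← hy0] at hst hG
  have hy2 : y0 < 2 := by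
    rw [hy0, div_lt_iff₀ (by linarith)]; linarith
  rcases le_or_gt y0 c with hle | hlt
  · exact hst.mono hle
  by_contra hno
  set I : Set ℝ := {y | 1 < y ∧ AllX d y} with hI
  have hI0 : y0 ∈ I := ⟨by linarith, hst⟩
  have hIc : ∀ y ∈ I, c ≤ y := by
    intro y hy
    by_contra hlt
    push Not at hlt
    exact hno (hy.2.mono hlt.le)
  have hbdd : BddBelow I := ⟨c, hIc⟩
  set m : ℝ := sInf I with hm
  have hcm : c ≤ m := le_csInf ⟨_, hI0⟩ hIc
  have hm2 : m ≤ y0 := csInf_le hbdd hI0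
  have hmE : AllX d m := by
    apply AllX_closed
    intro y hy
    obtain ⟨z, hz, hzy⟩ := exists_lt_of_csInf_lt ⟨_, hI0⟩ hy
    exact hz.2.mono hzy.le
  obtain ⟨c', h1, h2, h3⟩ := stepX hd (by linarith : 1 < m) (by linarith) hmE (hG m hcm hm2)
  obtain ⟨y, hy1, hy2⟩ := exists_between h2
  have hmem : y ∈ I := ⟨by linarith, h3.mono hy1.le⟩
  exact absurd (csInf_le hbdd hmem) (not_le.2 hy2)

end Pool.Agent.K3h18.HX
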