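import Pool.Agent.Y254.HK.StmG
import Pool.Agent.Y254.HK.Ext2
import Pool.Agent.Y812.HK.LHG
import Pool.Agent.Y812.HK.LDG
import Pool.Agent.Y86.HK.Sum
import Pool.Agent.Y655.HK.Two

/-!
# Kakeya tubes: oracles with the full mutual information

The oracle may contain the mutual information of the height and the line with the same coefficient
as the entropy of the cells.  This costs nothing, neither in the steps nor at the end, and lowers
the dimensions in which the hybrid argument works.
-/

set_option autoImplicit false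

open Finset
open scoped Classical

namespace Pool.Agent.K3h18.HX
open Pool.Agent.W904.AK Pool.Agent.W46.HD Pool.Agent.W46.HM Pool.Agent.Y244.HM
  Pool.Agent.W597.HD Pool.Agent.Y254HK

/-- General oracle: exponent `b`, also for the mutual information. -/
def OrX {Ω : Type} [Fintype Ω] {d : ℕ} (n : ℕ) (A D : Ω → Fin d → ℝ) (b G C : ℝ) : Prop :=
  ∀ p : Ω × Fin n → ℝ, IsLaw p → aa p ≤ b * (hh A D p + mi p) + G * lam p + C

/-- The general oracle with exponent `b`, coefficient `d` of the deficiency and loss `n ^ ε`. -/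
def AllX (d : ℕ) (b : ℝ) : Prop := ∀ ε : ℝ, 0 < ε → ∃ C : ℝ, 0 ≤ C ∧
    ∀ (n : ℕ) (Ω : Type) [Fintype Ω] (A D : Ω → Fin d → ℝ), IsFam n D →
      OrX n A D b d (ε * Real.log n + C)

/-- The oracle for two-ends, broad laws. -/
def AllBX (d : ℕ) (b : ℝ) : Prop := ∀ ε : ℝ, 0 < ε → ∃ C : ℝ, 0 ≤ C ∧
    ∀ (n : ℕ) (Ω : Type) [Fintype Ω] (A D : Ω → Fin d → ℝ), IsFam n D →
    ∀ p : Ω × Fin n → ℝ, IsLaw p → ∀ S : ℝ, SepM p S → ang A D p ≤ S →
      aa p ≤ b * (hh A D p + mi p) + d * lam p + ε * Real.log n + C * (1 + S)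

/-- `aa - b (hh + mi) - G lam` -/
noncomputable def LamX {Ω : Type} [Fintype Ω] {d n : ℕ} (A D : Ω → Fin d → ℝ) (b G : ℝ)
    (p : Ω × Fin n → ℝ) : ℝ := aa p - b * (hh A D p + mi p) - G * lam p

/-- The conditional oracle. -/
theorem OCX {d n : ℕ} {Ω : Type} [Fintype Ω] {A D : Ω → Fin d → ℝ} {b G C : ℝ}
    (hO : OrX n A D b G C) {Θ : Type} [Fintype Θ] {γ : Type} {q : Θ → ℝ} (l : Θ → Ω)
    (j : Θ → Fin n) (Q : Θ → γ) (hq : IsLaw q) :
    H q (fun z => (Q z, l z)) - H q Q ≤
      b * (H q (fun z => (Q z, j z, cell A D (j z) (l z))) - H q Q -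
        (H q (fun z => (Q z, l z, j z)) - H q (fun z => (Q z, l z)))) +
      G * (Real.log n - (H q (fun z => (Q z, l z, j z)) - H q (fun z => (Q z, l z)))) + C := by
  have e0 := chain hq Q l
  have e1 := chain hq Q (fun z => (j z, cell A D (j z) (l z)))
  have e3 := chain hq Q (fun z => (l z, j z))
  have key : ∀ x, q x * H (cd q Q (Q x)) l ≤
      b * (q x * H (cd q Q (Q x)) (fun z => (j z, cell A D (j z) (l z))) -
        (q x * H (cd q Q (Q x)) (fun z => (l z, j z)) -
        q x * H (cd q Q (Q x)) l)) +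
      (G * (q x * Real.log n - (q x * H (cd q Q (Q x)) (fun z => (l z, j z)) -
        q x * H (cd q Q (Q x)) l)) + q x * C) := by
    intro x
    by_cases hx : q x = 0
    · simp [hx]
    · have hlaw : IsLaw (cd q Q (Q x)) := cd_law hq Q (im_pos hq Q hx).ne'
      have h1 := hO (im (cd q Q (Q x)) fun z => (l z, j z)) (hlaw.im _)
      unfold aa hh lam mi at h1
      simp only [H_im, id_eq] at h1
      have h2 := mul_le_mul_of_nonneg_left h1 (hq.nonneg x)
      refine h2.trans (le_of_eq ?_)
      ring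
  have hsum := Finset.sum_le_sum fun x (_ : x ∈ (Finset.univ : Finset Θ)) => key x
  rw [Finset.sum_add_distrib, Finset.sum_add_distrib,
    ← Finset.mul_sum, ← Finset.mul_sum,
    Finset.sum_sub_distrib, Finset.sum_sub_distrib, Finset.sum_sub_distrib,
    Finset.sum_sub_distrib, ← Finset.sum_mul,
    ← Finset.sum_mul, hq.total, ← e0, ← e1, ← e3] at hsum
  refine hsum.trans (le_of_eq ?_)
  ring

/-! ### Two classes -/

theorem two_X {d n : ℕ} {Ω : Type} [Fintype Ω] (A D : Ω → Fin d → ℝ) {b G : ℝ} (hb : 0 ≤ b)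
    (hG : 0 ≤ G) {p : Ω × Fin n → ℝ} (hp : IsLaw p) (U : Ω × Fin n → Bool) {M1 M0 : ℝ}
    (h1 : im p U true ≠ 0 → LamX A D b G (cd p U true) ≤ M1)
    (h0 : im p U false ≠ 0 → LamX A D b G (cd p U false) ≤ M0) :
    LamX A D b G p ≤ im p U true * M1 + im p U false * M0 + (G + 1 + b) * H p U := by
  have hr : im p U true + im p U false = 1 := by
    have := sum_im_mul p U (fun _ => (1 : ℝ))
    rw [Fintype.sum_bool] at this
    simpa [hp.total] using this
  have g1 : im p U true * LamX A D b G (cd p U true) ≤ im p U true * M1 := by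
    by_cases h : im p U true = 0
    · rw [h, zero_mul, zero_mul]
    · exact mul_le_mul_of_nonneg_left (h1 h) (im_nonneg hp _ _)
  have g0 : im p U false * LamX A D b G (cd p U false) ≤ im p U false * M0 := by
    by_cases h : im p U false = 0
    · rw [h, zero_mul, zero_mul]
    · exact mul_le_mul_of_nonneg_left (h0 h) (im_nonneg hp _ _)
  have e1' : im p U true * H (cd p U true) Prod.fst + im p U false * H (cd p U false) Prod.fst =
      H p (fun x => (U x, x.1)) - H p U :=
    Pool.Agent.Y655.HKTWO.hc hp U (Prod.fst : Ω × Fin n → Ω)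
  have e3 := Pool.Agent.Y655.HKTWO.hc hp U (id : Ω × Fin n → Ω × Fin n)
  have e4 := Pool.Agent.Y655.HKTWO.hc hp U (fun z : Ω × Fin n => (z.2, cell A D z.2 z.1))
  have i1 : H p (Prod.fst : Ω × Fin n → Ω) ≤ H p (fun x => (U x, x.1)) :=
    H_mono hp (Det.snd p U Prod.fst)
  have i2 : H p (fun x => (U x, x.1)) ≤ H p U + H p (Prod.fst : Ω × Fin n → Ω) :=
    subadd hp (Det.refl p _)
  have i4 : H p (fun x => (U x, id x)) = H p (id : Ω × Fin n → Ω × Fin n) :=
    H_congr hp (Det.snd p U id) (fun x y _ _ h => by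
      have : x = y := h
      rw [this])
  have i5 : H p (fun x => (U x, (x.2, cell A D x.2 x.1))) ≤
      H p U + H p (fun x => (x.2, cell A D x.2 x.1)) := subadd hp (Det.refl p _)
  have hU := H_nonneg hp U
  rw [i4] at e3
  have key : im p U true * LamX A D b G (cd p U true) +
      im p U false * LamX A D b G (cd p U false) =
      (H p (fun x => (U x, x.1)) - H p U) -
      b * ((H p (fun x => (U x, (x.2, cell A D x.2 x.1))) - H p U) -
        ((H p (id : Ω × Fin n → Ω × Fin n) - H p U) - (H p (fun x => (U x, x.1)) - H p U))) -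
      G * (Real.log n - ((H p (id : Ω × Fin n → Ω × Fin n) - H p U) -
        (H p (fun x => (U x, x.1)) - H p U))) := by
    rw [← e1', ← e3, ← e4]
    unfold LamX aa hh lam mi
    have hr' : im p U false = 1 - im p U true := by linarith
    rw [hr']
    ring
  have j1 : b * (H p (fun x => (U x, (x.2, cell A D x.2 x.1)))) ≤
      b * (H p U + H p (fun x => (x.2, cell A D x.2 x.1))) :=
    mul_le_mul_of_nonneg_left i5 hb
  have j2 : (b + G) * H p (fun x => (U x, x.1)) ≤ (b + G) * (H p U + H p (Prod.fst : Ω × Fin n → Ω)) :=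
    mul_le_mul_of_nonneg_left i2 (by linarith)
  have expand : LamX A D b G p = H p (Prod.fst : Ω × Fin n → Ω) -
      b * (H p (fun x => (x.2, cell A D x.2 x.1)) - (H p (id : Ω × Fin n → Ω × Fin n) -
        H p (Prod.fst : Ω × Fin n → Ω))) -
      G * (Real.log n - (H p (id : Ω × Fin n → Ω × Fin n) - H p (Prod.fst : Ω × Fin n → Ω))) := by
    unfold LamX aa hh lam mi
    ring
  rw [expand]
  nlinarith [j1, j2, key, g1, g0, i1]

end Pool.Agent.K3h18.HX
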